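import Mathlib
import Pool.Agent.Q73.Core.Lap

/-!
# Laplacian tools: maximum principle, annulus principle, `|h|²` for holomorphic `h`
-/

set_option autoImplicit false

open Metric Set Filter Topology Laplacian InnerProductSpace

namespace Q72.Sub

/-- maximum principle for functions with nonnegative Laplacian -/
theorem maxPrinciple_lap {K U : Set ℂ} (hK : IsCompact K) (hU : IsOpen U) (hUK : U ⊆ K)
    {g : ℂ → ℝ} (hg : ContinuousOn g K)
    (hs : ∀ z ∈ U, ContDiffAt ℝ 2 g z ∧ 0 ≤ laplacian g z) (hb : ∀ z ∈ K, z ∉ U → g z ≤ 0)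
    {z : ℂ} (hz : z ∈ K) : g z ≤ 0 := by
  obtain ⟨R, hR⟩ := hK.isBounded.exists_norm_le
  have hR0 : 0 ≤ R := (norm_nonneg z).trans (hR z hz)
  have hsq : ContDiff ℝ 2 (fun w : ℂ => ‖w‖ ^ 2) := contDiff_norm_sq ℝ
  have hlsq : ∀ w : ℂ, laplacian (fun w : ℂ => ‖w‖ ^ 2) w = 4 := by
    intro w
    have := Q73.Core.laplacian_sq 0 w
    simpa using this
  have key : ∀ δ : ℝ, 0 < δ → g z ≤ δ * R ^ 2 := by
    intro δ hδ
    have hGc : ContinuousOn (fun w => g w + δ * ‖w‖ ^ 2) K := hg.add (by fun_prop)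
    obtain ⟨w, hw, hmax⟩ := hK.exists_isMaxOn ⟨z, hz⟩ hGc
    have h1 : g z + δ * ‖z‖ ^ 2 ≤ g w + δ * ‖w‖ ^ 2 := hmax hz
    have h2 : 0 ≤ δ * ‖z‖ ^ 2 := by positivity
    by_cases hwU : w ∈ U
    · exfalso
      obtain ⟨hc, hl⟩ := hs w hwU
      have hloc : IsLocalMax (fun w => g w + δ * ‖w‖ ^ 2) w :=
        hmax.isLocalMax (mem_of_superset (hU.mem_nhds hwU) hUK)
      have hc2 : ContDiffAt ℝ 2 (fun w : ℂ => δ * ‖w‖ ^ 2) w :=
        (contDiff_const.mul hsq).contDiffAt
      have h3 := Q73.Core.laplacian_nonpos (hc.add hc2) hloc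
      have h4 : laplacian (fun w => g w + δ * ‖w‖ ^ 2) w =
          laplacian g w + laplacian (fun w : ℂ => δ * ‖w‖ ^ 2) w := hc.laplacian_add hc2
      have h5 : laplacian (fun w : ℂ => δ * ‖w‖ ^ 2) w = δ * 4 := by
        have := laplacian_smul (f := fun w : ℂ => ‖w‖ ^ 2) (x := w) δ hsq.contDiffAt
        rw [← hlsq w]
        exact this
      rw [h4, h5] at h3
      linarith
    · have h3 := hb w hw hwU
      have h4 : ‖w‖ ^ 2 ≤ R ^ 2 := by
        have := hR w hw
        have := norm_nonneg w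
        nlinarith
      nlinarith
  by_contra hcon
  push Not at hcon
  have h1 := key (g z / (2 * (R ^ 2 + 1))) (by positivity)
  rw [div_mul_eq_mul_div, le_div_iff₀ (by positivity)] at h1
  nlinarith [sq_nonneg R]

/-- annulus principle -/
theorem annulus_lap {r R : ℝ} (hr : 0 < r) {g : ℂ → ℝ}
    (hg : ContinuousOn g {z : ℂ | r ≤ ‖z‖ ∧ ‖z‖ ≤ R})
    (hs : ∀ z : ℂ, r < ‖z‖ → ‖z‖ < R → ContDiffAt ℝ 2 g z ∧ 0 ≤ laplacian g z) {a b : ℝ}
    (h1 : ∀ z : ℂ, ‖z‖ = r → g z ≤ a + b * Real.log r)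
    (h2 : ∀ z : ℂ, ‖z‖ = R → g z ≤ a + b * Real.log R) {z : ℂ}
    (hz1 : r ≤ ‖z‖) (hz2 : ‖z‖ ≤ R) : g z ≤ a + b * Real.log ‖z‖ := by
  have hKc : IsCompact {z : ℂ | r ≤ ‖z‖ ∧ ‖z‖ ≤ R} := by
    have : {z : ℂ | r ≤ ‖z‖ ∧ ‖z‖ ≤ R} = closedBall 0 R ∩ {z : ℂ | r ≤ ‖z‖} := by
      ext z
      simp [and_comm]
    rw [this]
    exact (isCompact_closedBall _ _).inter_right (isClosed_le continuous_const continuous_norm)
  have hUo : IsOpen {z : ℂ | r < ‖z‖ ∧ ‖z‖ < R} :=
    (isOpen_lt continuous_const continuous_norm).inter (isOpen_lt continuous_norm continuous_const)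
  have hlog : ContinuousOn (fun z : ℂ => a + b * Real.log ‖z‖) {z : ℂ | r ≤ ‖z‖ ∧ ‖z‖ ≤ R} := by
    apply ContinuousOn.add continuousOn_const
    apply ContinuousOn.mul continuousOn_const
    apply ContinuousOn.log continuous_norm.continuousOn
    intro w hw
    have := hw.1
    linarith
  have key : g z - (a + b * Real.log ‖z‖) ≤ 0 := by
    apply maxPrinciple_lap (g := fun z => g z - (a + b * Real.log ‖z‖)) hKc hUo
      (fun z hz => ⟨hz.1.le, hz.2.le⟩) (hg.sub hlog) ?_ ?_ (z := z) ⟨hz1, hz2⟩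
    · intro w hw
      obtain ⟨hc, hl⟩ := hs w hw.1 hw.2
      have hw0 : w ≠ 0 := norm_pos_iff.1 (hr.trans hw.1)
      have hharm : HarmonicAt (fun z : ℂ => Real.log ‖z‖) w :=
        AnalyticAt.harmonicAt_log_norm analyticAt_id hw0
      have hc1 : ContDiffAt ℝ 2 (fun z : ℂ => b * Real.log ‖z‖) w := contDiffAt_const.mul hharm.1
      have hc2 : ContDiffAt ℝ 2 (fun z : ℂ => a + b * Real.log ‖z‖) w := contDiffAt_const.add hc1
      refine ⟨hc.sub hc2, ?_⟩
      have e1 : laplacian (fun z => g z - (a + b * Real.log ‖z‖)) w =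
          laplacian g w - laplacian (fun z : ℂ => a + b * Real.log ‖z‖) w := hc.laplacian_sub hc2
      have e2 : laplacian (fun z : ℂ => a + b * Real.log ‖z‖) w =
          laplacian (fun _ : ℂ => a) w + laplacian (fun z : ℂ => b * Real.log ‖z‖) w :=
        (contDiffAt_const (c := a)).laplacian_add hc1
      have e3 : laplacian (fun z : ℂ => b * Real.log ‖z‖) w = 0 := by
        have := laplacian_smul (f := fun z : ℂ => Real.log ‖z‖) (x := w) b hharm.1
        have h5 : laplacian (fun z : ℂ => Real.log ‖z‖) w = 0 := hharm.2.eq_of_nhds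
        rw [h5, smul_zero] at this
        exact this
      have e4 : laplacian (fun _ : ℂ => a) w = 0 := by
        simp
      rw [e1, e2, e3, e4]
      linarith
    · intro w hw hwU
      have : ‖w‖ = r ∨ ‖w‖ = R := by
        by_contra hcon
        push Not at hcon
        exact hwU ⟨lt_of_le_of_ne hw.1 (Ne.symm hcon.1), lt_of_le_of_ne hw.2 hcon.2⟩
      rcases this with h | h
      · have := h1 w h
        simp only [h]
        linarith
      · have := h2 w h
        simp only [h]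
        linarith
  linarith

/-- the Laplacian from the second derivatives along two lines -/
lemma laplacian_of_lines {u : ℂ → ℝ} {x : ℂ} (hu : ContDiffAt ℝ 2 u x) {s : ℂ → ℝ}
    (h : ∀ v : ℂ, ∃ g' : ℝ → ℝ, (∀ᶠ t : ℝ in 𝓝 0, HasDerivAt (fun t : ℝ => u (x + t • v)) (g' t) t) ∧
      HasDerivAt g' (s v) 0) : laplacian u x = s 1 + s Complex.I := by
  rw [laplacian_eq_iteratedFDeriv_complexPlane]
  have key : ∀ v : ℂ, iteratedFDeriv ℝ 2 u x ![v, v] = s v := by
    intro v
    obtain ⟨g', h1, h2⟩ := h v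
    have k1 := Q73.Core.line_deriv (v := v) hu
    have k2 := Q73.Core.line_deriv2 (v := v) hu
    have h3 : g' =ᶠ[𝓝 0] fun t : ℝ => fderiv ℝ u (x + t • v) v := by
      filter_upwards [h1, k1] with t a1 a2
      exact a1.unique a2
    exact (k2.unique (h2.congr_of_eventuallyEq h3.symm)) 
  simp only [key]

/-- `Δ |h|² = 4 |h'|²` -/
lemma laplacian_normSq_hol {h : ℂ → ℂ} (hh : Differentiable ℂ h) (x : ℂ) :
    laplacian (fun z => ‖h z‖ ^ 2) x = 4 * ‖deriv h x‖ ^ 2 := by
  have hcd : ContDiff ℝ 2 (fun z => ‖h z‖ ^ 2) :=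
    (contDiff_norm_sq ℝ).comp (hh.contDiff.restrict_scalars ℝ)
  have hd2 : Differentiable ℂ (deriv h) := hh.contDiff.differentiable_deriv_two
  have key := laplacian_of_lines (x := x) hcd.contDiffAt (s := fun v =>
    2 * (inner ℝ (deriv h x * v) (deriv h x * v) + inner ℝ (h x) (deriv (deriv h) x * v * v)))
    (fun v => by
      have hl : ∀ t : ℝ, HasDerivAt (fun t : ℝ => x + t • v) v t := by
        intro t
        simpa using ((hasDerivAt_id t).smul_const v).const_add x
      have hA : ∀ t : ℝ, HasDerivAt (fun t : ℝ => h (x + t • v)) (deriv h (x + t • v) * v) t := by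
        intro t
        have := (hh (x + t • v)).hasDerivAt.comp_of_eq t (hl t) rfl
        exact this
      have hB : ∀ t : ℝ, HasDerivAt (fun t : ℝ => deriv h (x + t • v) * v)
          (deriv (deriv h) (x + t • v) * v * v) t := by
        intro t
        have := ((hd2 (x + t • v)).hasDerivAt.comp_of_eq t (hl t) rfl).mul_const v
        exact this
      refine ⟨fun t => 2 * inner ℝ (h (x + t • v)) (deriv h (x + t • v) * v),
        Eventually.of_forall fun t => (hA t).norm_sq, ?_⟩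
      have h3 := ((hA 0).inner ℝ (hB 0)).const_mul 2
      refine h3.congr_deriv ?_
      simp only [zero_smul, add_zero]
      ring)
  rw [key]
  have e1 : deriv (deriv h) x * Complex.I * Complex.I = -(deriv (deriv h) x) := by
    rw [mul_assoc, Complex.I_mul_I, mul_neg, mul_one]
  simp only [mul_one, e1, inner_neg_right, real_inner_self_eq_norm_sq, norm_mul, Complex.norm_I]
  ring

end Q72.Sub
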