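import Mathlib

/-!
# Levi form and core of a domain in `ℂ²`
-/

set_option autoImplicit false

open Metric Set Filter Topology

namespace Q72.Sub

/-- `ℂ²` -/
abbrev C2 := ℂ × ℂ

/-- The Levi form of a smooth function `φ` at `z` in the direction `ξ`:
`∑ ∂²φ/∂z_j∂z̄_k (z) ξ_j ξ̄_k = ∂²/∂ζ∂ζ̄ φ(z + ζ ξ) |_{ζ = 0}`, i.e. one quarter of the Laplacian
at `0` of `ζ ↦ φ(z + ζ ξ)`. -/
noncomputable def Lev (φ : C2 → ℝ) (z ξ : C2) : ℝ :=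
  (1 / 4) * Laplacian.laplacian (fun ζ : ℂ => φ (z + ζ • ξ)) 0

/-- `φ` is a smooth (`C^∞`) plurisubharmonic function on `D` that is bounded from above -/
def IsBddPsh (D : Set C2) (φ : C2 → ℝ) : Prop :=
  ContDiffOn ℝ ((⊤ : ℕ∞) : WithTop ℕ∞) φ D ∧ (∀ z ∈ D, ∀ ξ : C2, 0 ≤ Lev φ z ξ) ∧
    BddAbove (φ '' D)

/-- `φ` is strictly plurisubharmonic at `z` -/
def StrictAt (φ : C2 → ℝ) (z : C2) : Prop := ∀ ξ : C2, ξ ≠ 0 → 0 < Lev φ z ξ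

/-- the core of `D` -/
def core (D : Set C2) : Set C2 :=
  {z | z ∈ D ∧ ¬ ∃ φ : C2 → ℝ, IsBddPsh D φ ∧ StrictAt φ z}

end Q72.Sub
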