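import Mathlib
import Pool.Agent.Q72.Sub.Defs
import Pool.Agent.Q72.Sub.Lap

/-!
# The Eisenman–Taylor domain
-/

set_option autoImplicit false

open Metric Set Filter Topology Laplacian InnerProductSpace

namespace Q72.Sub

/-- the large domain -/
def Om : Set C2 := {p | ‖p.1‖ < 1 ∧ ‖p.1 * p.2‖ < 1 ∧ (p.1 = 0 → ‖p.2‖ < 1)}

/-- the small domain -/
def om : Set C2 := {p | p ∈ Om ∧ ‖p.2‖ < 2}

lemma isOpen_Om : IsOpen Om := by
  have e : Om = {p : C2 | ‖p.1‖ < 1} ∩ ({p : C2 | ‖p.1 * p.2‖ < 1} ∩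
      {p : C2 | p.1 = 0 ∧ 1 ≤ ‖p.2‖}ᶜ) := by
    ext p
    simp only [Om, mem_setOf_eq, mem_inter_iff, mem_compl_iff, not_and, not_le]
  rw [e]
  refine (isOpen_lt (by fun_prop) (by fun_prop)).inter
    ((isOpen_lt (by fun_prop) (by fun_prop)).inter ?_)
  rw [isOpen_compl_iff]
  have e2 : {p : C2 | p.1 = 0 ∧ 1 ≤ ‖p.2‖} = {p : C2 | p.1 = 0} ∩ {p : C2 | 1 ≤ ‖p.2‖} := rfl
  rw [e2]
  exact (isClosed_eq continuous_fst continuous_const).inter
    (isClosed_le continuous_const (by fun_prop))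

lemma isOpen_om : IsOpen om := by
  have e : om = Om ∩ {p : C2 | ‖p.2‖ < 2} := rfl
  rw [e]
  exact isOpen_Om.inter (isOpen_lt (by fun_prop) (by fun_prop))

lemma zero_mem_Om : (0 : C2) ∈ Om := by simp [Om]

lemma zero_mem_om : (0 : C2) ∈ om := ⟨zero_mem_Om, by simp⟩

/-- a set that is starlike in the second variable and contains the disc `{(z, 0)}` -/
lemma conn {A : Set C2} (h0 : (0 : C2) ∈ A)
    (h1 : ∀ p ∈ A, ∀ t ∈ Icc (0 : ℝ) 1, (p.1, (t : ℂ) * p.2) ∈ A)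
    (h2 : ∀ p ∈ A, ∀ t ∈ Icc (0 : ℝ) 1, ((t : ℂ) * p.1, (0 : ℂ)) ∈ A) : IsConnected A := by
  refine ⟨⟨0, h0⟩, ?_⟩
  apply isPreconnected_of_forall (0 : C2)
  intro p hp
  refine ⟨(fun t : ℝ => ((p.1, (t : ℂ) * p.2) : C2)) '' Icc 0 1 ∪
    (fun t : ℝ => (((t : ℂ) * p.1, (0 : ℂ)) : C2)) '' Icc 0 1, ?_, ?_, ?_, ?_⟩
  · apply union_subset
    · rintro _ ⟨t, ht, rfl⟩; exact h1 p hp t ht
    · rintro _ ⟨t, ht, rfl⟩; exact h2 p hp t ht
  · exact Or.inr ⟨0, by simp, by simp⟩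
  · exact Or.inl ⟨1, by simp, by simp⟩
  · apply IsPreconnected.union ((p.1, (0 : ℂ)) : C2)
    · exact ⟨0, by simp, by simp⟩
    · exact ⟨1, by simp, by simp⟩
    · exact isPreconnected_Icc.image _ (by fun_prop)
    · exact isPreconnected_Icc.image _ (by fun_prop)

lemma isConnected_Om : IsConnected Om := by
  apply conn zero_mem_Om
  · rintro ⟨z, w⟩ ⟨h1, h2, h3⟩ t ht
    have e1 : ‖(t : ℂ)‖ = t := by rw [Complex.norm_real, Real.norm_of_nonneg ht.1]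
    refine ⟨h1, ?_, ?_⟩
    · have : ‖z * ((t : ℂ) * w)‖ = t * ‖z * w‖ := by
        rw [norm_mul, norm_mul, norm_mul, e1]; ring
      simp only at h2 ⊢
      rw [this]
      nlinarith [ht.2, norm_nonneg (z * w)]
    · intro hz
      have h4 := h3 hz
      simp only at h4 ⊢
      rw [norm_mul, e1]
      nlinarith [ht.2, ht.1, norm_nonneg w]
  · rintro ⟨z, w⟩ ⟨h1, h2, h3⟩ t ht
    have e1 : ‖(t : ℂ)‖ = t := by rw [Complex.norm_real, Real.norm_of_nonneg ht.1]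
    refine ⟨?_, by simp, by simp⟩
    simp only at h1 ⊢
    rw [norm_mul, e1]
    nlinarith [ht.2, ht.1, norm_nonneg z]

lemma isConnected_om : IsConnected om := by
  apply conn zero_mem_om
  · rintro ⟨z, w⟩ ⟨⟨h1, h2, h3⟩, h5⟩ t ht
    have e1 : ‖(t : ℂ)‖ = t := by rw [Complex.norm_real, Real.norm_of_nonneg ht.1]
    refine ⟨⟨h1, ?_, ?_⟩, ?_⟩
    · have : ‖z * ((t : ℂ) * w)‖ = t * ‖z * w‖ := by
        rw [norm_mul, norm_mul, norm_mul, e1]; ring
      simp only at h2 ⊢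
      rw [this]
      nlinarith [ht.2, norm_nonneg (z * w)]
    · intro hz
      have h4 := h3 hz
      simp only at h4 ⊢
      rw [norm_mul, e1]
      nlinarith [ht.2, ht.1, norm_nonneg w]
    · simp only at h5 ⊢
      rw [norm_mul, e1]
      nlinarith [ht.2, ht.1, norm_nonneg w]
  · rintro ⟨z, w⟩ ⟨⟨h1, h2, h3⟩, h5⟩ t ht
    have e1 : ‖(t : ℂ)‖ = t := by rw [Complex.norm_real, Real.norm_of_nonneg ht.1]
    refine ⟨⟨?_, by simp, by simp⟩, by simp⟩
    simp only at h1 ⊢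
    rw [norm_mul, e1]
    nlinarith [ht.2, ht.1, norm_nonneg z]

/-! ### explicit plurisubharmonic functions -/

lemma laplacian_sum {g h : ℂ → ℂ} (hg : Differentiable ℂ g) (hh : Differentiable ℂ h) (x : ℂ) :
    laplacian (fun z => ‖g z‖ ^ 2 + ‖h z‖ ^ 2) x = 4 * (‖deriv g x‖ ^ 2 + ‖deriv h x‖ ^ 2) := by
  have c1 : ContDiff ℝ 2 (fun z => ‖g z‖ ^ 2) :=
    (contDiff_norm_sq ℝ).comp (hg.contDiff.restrict_scalars ℝ)
  have c2 : ContDiff ℝ 2 (fun z => ‖h z‖ ^ 2) :=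
    (contDiff_norm_sq ℝ).comp (hh.contDiff.restrict_scalars ℝ)
  have e : laplacian (fun z => ‖g z‖ ^ 2 + ‖h z‖ ^ 2) x =
      laplacian (fun z => ‖g z‖ ^ 2) x + laplacian (fun z => ‖h z‖ ^ 2) x :=
    c1.contDiffAt.laplacian_add c2.contDiffAt
  rw [e, laplacian_normSq_hol hg, laplacian_normSq_hol hh]
  ring

/-- `|z|² + |w|²` -/
noncomputable def f1 (p : C2) : ℝ := ‖p.1‖ ^ 2 + ‖p.2‖ ^ 2

/-- `|z|² + |z w|²` -/
noncomputable def f2 (p : C2) : ℝ := ‖p.1‖ ^ 2 + ‖p.1 * p.2‖ ^ 2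

lemma lev_f1 (p ξ : C2) : Lev f1 p ξ = ‖ξ.1‖ ^ 2 + ‖ξ.2‖ ^ 2 := by
  have h := laplacian_sum (g := fun ζ => p.1 + ζ * ξ.1) (h := fun ζ => p.2 + ζ * ξ.2)
    (by fun_prop) (by fun_prop) 0
  have d1 : deriv (fun ζ : ℂ => p.1 + ζ * ξ.1) 0 = ξ.1 := by simp
  have d2 : deriv (fun ζ : ℂ => p.2 + ζ * ξ.2) 0 = ξ.2 := by simp
  rw [d1, d2] at h
  have e : (fun ζ : ℂ => f1 (p + ζ • ξ)) = fun ζ => ‖p.1 + ζ * ξ.1‖ ^ 2 + ‖p.2 + ζ * ξ.2‖ ^ 2 := by
    ext ζ; simp [f1]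
  unfold Lev
  rw [e, h]
  ring

lemma lev_f2 (p ξ : C2) : Lev f2 p ξ = ‖ξ.1‖ ^ 2 + ‖p.1 * ξ.2 + p.2 * ξ.1‖ ^ 2 := by
  have h := laplacian_sum (g := fun ζ => p.1 + ζ * ξ.1)
    (h := fun ζ => (p.1 + ζ * ξ.1) * (p.2 + ζ * ξ.2)) (by fun_prop) (by fun_prop) 0
  have d1 : deriv (fun ζ : ℂ => p.1 + ζ * ξ.1) 0 = ξ.1 := by simp
  have d2 : deriv (fun ζ : ℂ => (p.1 + ζ * ξ.1) * (p.2 + ζ * ξ.2)) 0 =
      p.1 * ξ.2 + p.2 * ξ.1 := by
    have h1 : HasDerivAt (fun ζ : ℂ => p.1 + ζ * ξ.1) ξ.1 0 := by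
      simpa using ((hasDerivAt_id (0 : ℂ)).mul_const ξ.1).const_add p.1
    have h2 : HasDerivAt (fun ζ : ℂ => p.2 + ζ * ξ.2) ξ.2 0 := by
      simpa using ((hasDerivAt_id (0 : ℂ)).mul_const ξ.2).const_add p.2
    have h3 : HasDerivAt (fun ζ : ℂ => (p.1 + ζ * ξ.1) * (p.2 + ζ * ξ.2)) _ 0 := h1.mul h2
    rw [h3.deriv]
    ring
  rw [d1, d2] at h
  have e : (fun ζ : ℂ => f2 (p + ζ • ξ)) =
      fun ζ => ‖p.1 + ζ * ξ.1‖ ^ 2 + ‖(p.1 + ζ * ξ.1) * (p.2 + ζ * ξ.2)‖ ^ 2 := by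
    ext ζ; simp [f2]
  unfold Lev
  rw [e, h]
  ring

lemma contDiff_f1 : ContDiff ℝ ((⊤ : ℕ∞) : WithTop ℕ∞) f1 :=
  (contDiff_fst.norm_sq ℝ).add (contDiff_snd.norm_sq ℝ)

lemma contDiff_f2 : ContDiff ℝ ((⊤ : ℕ∞) : WithTop ℕ∞) f2 :=
  (contDiff_fst.norm_sq ℝ).add ((contDiff_fst.mul contDiff_snd).norm_sq ℝ)

lemma f1_psh : IsBddPsh om f1 := by
  refine ⟨contDiff_f1.contDiffOn, fun z _ ξ => ?_, 5, ?_⟩
  · rw [lev_f1]; positivity
  · rintro _ ⟨p, ⟨⟨h1, _, _⟩, h2⟩, rfl⟩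
    unfold f1
    nlinarith [norm_nonneg p.1, norm_nonneg p.2]

lemma f1_strict (z : C2) : StrictAt f1 z := by
  intro ξ hξ
  rw [lev_f1]
  by_contra hcon
  push Not at hcon
  have h1 : ‖ξ.1‖ ^ 2 = 0 := le_antisymm (by nlinarith [sq_nonneg ‖ξ.2‖]) (sq_nonneg _)
  have h2 : ‖ξ.2‖ ^ 2 = 0 := le_antisymm (by nlinarith [sq_nonneg ‖ξ.1‖]) (sq_nonneg _)
  apply hξ
  ext1
  · simpa using h1
  · simpa using h2

lemma f2_psh : IsBddPsh Om f2 := by
  refine ⟨contDiff_f2.contDiffOn, fun z _ ξ => ?_, 2, ?_⟩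
  · rw [lev_f2]; positivity
  · rintro _ ⟨p, ⟨h1, h2, _⟩, rfl⟩
    unfold f2
    nlinarith [norm_nonneg p.1, norm_nonneg (p.1 * p.2)]

lemma f2_strict {z : C2} (hz : z.1 ≠ 0) : StrictAt f2 z := by
  intro ξ hξ
  rw [lev_f2]
  by_contra hcon
  push Not at hcon
  have h1 : ‖ξ.1‖ ^ 2 = 0 :=
    le_antisymm (by nlinarith [sq_nonneg ‖z.1 * ξ.2 + z.2 * ξ.1‖]) (sq_nonneg _)
  have h2 : ‖z.1 * ξ.2 + z.2 * ξ.1‖ ^ 2 = 0 :=
    le_antisymm (by nlinarith [sq_nonneg ‖ξ.1‖]) (sq_nonneg _)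
  have h3 : ξ.1 = 0 := by simpa using h1
  have h4 : ξ.2 = 0 := by
    rw [h3] at h2
    simpa [hz] using h2
  apply hξ
  ext1
  · exact h3
  · exact h4

/-! ### the origin lies in the core of `Om` -/

lemma disc_mem {j : ℝ} (hj : 1 ≤ j) {ξ : ℂ} (hξ : ‖ξ‖ < j) :
    ξ • ((((j ^ 2)⁻¹ : ℝ) : ℂ), (1 : ℂ)) ∈ Om := by
  have hj0 : 0 < j := by linarith
  have e1 : ‖(((j ^ 2)⁻¹ : ℝ) : ℂ)‖ = (j ^ 2)⁻¹ := by
    rw [Complex.norm_real, Real.norm_of_nonneg (by positivity)]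
  refine ⟨?_, ?_, ?_⟩
  · simp only [Prod.smul_fst, smul_eq_mul]
    rw [norm_mul, e1, mul_inv_lt_iff₀ (by positivity)]
    nlinarith
  · simp only [Prod.smul_fst, Prod.smul_snd, smul_eq_mul, mul_one]
    rw [norm_mul, norm_mul, e1]
    have : ‖ξ‖ * (j ^ 2)⁻¹ * ‖ξ‖ = ‖ξ‖ ^ 2 * (j ^ 2)⁻¹ := by ring
    rw [this, mul_inv_lt_iff₀ (by positivity), one_mul]
    exact pow_lt_pow_left₀ hξ (norm_nonneg _) (by norm_num)
  · intro h
    simp only [Prod.smul_fst, smul_eq_mul, mul_eq_zero] at h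
    have h2 : ξ = 0 := by
      rcases h with h | h
      · exact h
      · exfalso
        rw [← norm_eq_zero, e1] at h
        have : 0 < (j ^ 2)⁻¹ := by positivity
        linarith
    rw [h2]; simp

lemma laplacian_line {f : C2 → ℝ} {v : C2} (ξ : ℂ) :
    laplacian (fun ζ : ℂ => f (ζ • v)) ξ = 4 * Lev f (ξ • v) v := by
  unfold Lev
  have e : (fun ζ : ℂ => f (ξ • v + ζ • v)) = fun ζ : ℂ => (fun ζ : ℂ => f (ζ • v)) (ζ + ξ) := by
    ext ζ
    show f (ξ • v + ζ • v) = f ((ζ + ξ) • v)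
    rw [add_comm ζ ξ, add_smul]
  rw [e, laplacian_eq_iteratedFDeriv_complexPlane, laplacian_eq_iteratedFDeriv_complexPlane]
  simp only [iteratedFDeriv_comp_add_right (f := fun ζ : ℂ => f (ζ • v)) 2 ξ, zero_add]
  ring

theorem zero_mem_core : (0 : C2) ∈ core Om := by
  refine ⟨zero_mem_Om, ?_⟩
  rintro ⟨f, ⟨hf, hlev, C, hC⟩, hstrict⟩
  have hC' : ∀ p ∈ Om, f p ≤ C := fun p hp => hC ⟨p, hp, rfl⟩
  have hcont : ContinuousOn f Om := hf.continuousOn
  -- the key inequality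
  have key : ∀ ξ : ℂ, ‖ξ‖ < 1 → f (0, ξ) ≤ f 0 := by
    intro ξ hξ
    by_cases hξ0 : ξ = 0
    · rw [hξ0]; exact le_rfl
    have hξp : 0 < ‖ξ‖ := norm_pos_iff.2 hξ0
    apply le_of_forall_pos_le_add
    intro ε hε
    obtain ⟨d, hd, hds⟩ := Metric.mem_nhds_iff.1
      ((hcont.continuousAt (isOpen_Om.mem_nhds zero_mem_Om)).eventually
        (gt_mem_nhds (show f 0 < f 0 + ε by linarith)))
    set r : ℝ := min (d / 2) ‖ξ‖ with hr
    have hr0 : 0 < r := lt_min (by linarith) hξp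
    have hrξ : r ≤ ‖ξ‖ := min_le_right _ _
    have hrd : r < d := lt_of_le_of_lt (min_le_left _ _) (by linarith)
    set A : ℝ := f 0 + ε with hA
    -- the disc of radius `j`
    have hj : ∀ j : ℝ, 2 ≤ j → f (ξ • ((((j ^ 2)⁻¹ : ℝ) : ℂ), (1 : ℂ))) ≤
        A + |C - A| * (Real.log ‖ξ‖ - Real.log r) / (Real.log (j / 2) - Real.log r) := by
      intro j hj2
      set v : C2 := ((((j ^ 2)⁻¹ : ℝ) : ℂ), (1 : ℂ)) with hv
      have hR : ‖ξ‖ < j / 2 := by linarith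
      have hmem : ∀ w : ℂ, ‖w‖ ≤ j / 2 → w • v ∈ Om := fun w hw =>
        disc_mem (by linarith) (by linarith)
      have hlog : 0 < Real.log (j / 2) - Real.log r := by
        have := Real.log_lt_log hr0 (lt_of_le_of_lt hrξ hR)
        linarith
      set b : ℝ := |C - A| / (Real.log (j / 2) - Real.log r) with hb
      have hb0 : 0 ≤ b := by positivity
      have hvc : ContDiff ℝ 2 (fun w : ℂ => w • v) := contDiff_id.smul contDiff_const
      have h1 := annulus_lap hr0 (R := j / 2) (g := fun w : ℂ => f (w • v))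
        (hcont.comp (by fun_prop) fun w hw => hmem w hw.2)
        (fun w _ hw => by
          have hm := hmem w hw.le
          refine ⟨?_, ?_⟩
          · have hfc : ContDiffAt ℝ 2 f (w • v) :=
              (hf.contDiffAt (isOpen_Om.mem_nhds hm)).of_le (WithTop.coe_le_coe.2 le_top)
            exact hfc.comp w hvc.contDiffAt
          · rw [laplacian_line]
            have := hlev _ hm v
            linarith)
        (a := A - b * Real.log r) (b := b)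
        (fun w hw => by
          have h2 : w • v ∈ ball (0 : C2) d := by
            rw [mem_ball, dist_zero_right, norm_smul, hw]
            have : ‖v‖ ≤ 1 := by
              rw [hv, Prod.norm_def]
              apply max_le
              · rw [Complex.norm_real, Real.norm_of_nonneg (by positivity)]
                apply inv_le_one_of_one_le₀
                nlinarith
              · simp
            nlinarith
          have h3 : f (w • v) < A := hds h2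
          linarith)
        (fun w hw => by
          have h2 : b * Real.log (j / 2) - b * Real.log r = |C - A| := by
            rw [hb]; field_simp
          have := hC' _ (hmem w hw.le)
          have := le_abs_self (C - A)
          linarith) (z := ξ) hrξ hR.le
      have h3 : |C - A| * (Real.log ‖ξ‖ - Real.log r) / (Real.log (j / 2) - Real.log r) =
        b * Real.log ‖ξ‖ - b * Real.log r := by
        rw [hb]; field_simp
      rw [h3]
      linarith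
    -- passage to the limit
    have hlim1 : Tendsto (fun j : ℝ => A + |C - A| * (Real.log ‖ξ‖ - Real.log r) /
        (Real.log (j / 2) - Real.log r)) atTop (𝓝 (A + 0)) := by
      apply Tendsto.const_add
      apply Tendsto.const_div_atTop
      apply tendsto_atTop_add_const_right
      exact Real.tendsto_log_atTop.comp (tendsto_id.atTop_div_const (by norm_num))
    rw [add_zero] at hlim1
    have hmem0 : ((0 : ℂ), ξ) ∈ Om := ⟨by simp, by simp, fun _ => hξ⟩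
    have hlim2 : Tendsto (fun j : ℝ => f (ξ • ((((j ^ 2)⁻¹ : ℝ) : ℂ), (1 : ℂ)))) atTop
        (𝓝 (f (0, ξ))) := by
      have h4 := (hcont.continuousAt (isOpen_Om.mem_nhds hmem0)).tendsto
      apply h4.comp
      have h5 : Tendsto (fun j : ℝ => (j ^ 2)⁻¹) atTop (𝓝 0) :=
        (tendsto_pow_atTop (by norm_num)).inv_tendsto_atTop
      have h6 : Tendsto (fun j : ℝ => (((j ^ 2)⁻¹ : ℝ) : ℂ)) atTop (𝓝 ((0 : ℝ) : ℂ)) :=
        (Complex.continuous_ofReal.tendsto 0).comp h5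
      have h7 : Tendsto (fun j : ℝ => ((((j ^ 2)⁻¹ : ℝ) : ℂ), (1 : ℂ))) atTop
          (𝓝 (((0 : ℝ) : ℂ), (1 : ℂ))) := h6.prodMk_nhds tendsto_const_nhds
      have h8 := h7.const_smul ξ
      simpa using h8
    apply le_of_tendsto_of_tendsto hlim2 hlim1
    filter_upwards [eventually_ge_atTop 2] with j hj2 using hj j hj2
  -- contradiction with strictness in the direction `(0, 1)`
  have hs := hstrict ((0 : ℂ), (1 : ℂ)) (by simp)
  unfold Lev at hs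
  have hfc : ContDiffAt ℝ 2 f 0 :=
    (hf.contDiffAt (isOpen_Om.mem_nhds zero_mem_Om)).of_le (WithTop.coe_le_coe.2 le_top)
  have hc : ContDiffAt ℝ 2 (fun ζ : ℂ => f (0 + ζ • ((0 : ℂ), (1 : ℂ)))) 0 := by
    have h1 : ContDiff ℝ 2 (fun ζ : ℂ => (0 : C2) + ζ • ((0 : ℂ), (1 : ℂ))) :=
      contDiff_const.add (contDiff_id.smul contDiff_const)
    have h2 : ContDiffAt ℝ 2 f ((fun ζ : ℂ => (0 : C2) + ζ • ((0 : ℂ), (1 : ℂ))) 0) := by
      simpa using hfc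
    exact h2.comp 0 h1.contDiffAt
  have hmax : IsLocalMax (fun ζ : ℂ => f (0 + ζ • ((0 : ℂ), (1 : ℂ)))) 0 := by
    filter_upwards [isOpen_ball.mem_nhds (mem_ball_self (one_pos (α := ℝ)))] with ζ hζ
    have hζ' : ‖ζ‖ < 1 := by simpa using hζ
    have := key ζ hζ'
    simpa using this
  have := Q73.Core.laplacian_nonpos hc hmax
  linarith

theorem core_Om_subset : core Om ⊆ om := by
  rintro z ⟨hz, hcore⟩
  by_cases h : z.1 = 0
  · refine ⟨hz, ?_⟩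
    have := hz.2.2 h
    linarith
  · exact absurd ⟨f2, f2_psh, f2_strict h⟩ hcore

theorem core_om : core om = ∅ := by
  ext z
  simp only [mem_empty_iff_false, iff_false]
  rintro ⟨_, hcore⟩
  exact hcore ⟨f1, f1_psh, f1_strict z⟩

end Q72.Sub
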